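import Pool.Agent.Helper60.TG.Goals
import Pool.Agent.Helper85.T3.DADD
import Pool.Agent.Helper34.T3.FDEG

/-!
# Packet TG-STEPS (MP_a41896_nt): the one-variable step on the same curve
-/

set_option autoImplicit false

namespace Pool.Agent.Helper59.TG.STEPS

open WeierstrassCurve
open Pool.Agent.Helper29.BL Pool.Agent.Helper92.Ru Pool.Agent.Helper42.SG
open Pool.Agent.Helper60.T3 (WL IP zd)
open Pool.Agent.Helper42.TN (NonIsog NoCM)

noncomputable section

section base

variable {K L : Type} [Field K] [Field L] [Algebra K L]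

lemma alg_mono {A B : IntermediateField K L} (hle : A ≤ B) {z : L} (h : IsAlgebraic A z) : IsAlgebraic B z := by
  obtain ⟨p, hp, hp0⟩ := h
  refine ⟨p.map (IntermediateField.inclusion hle).toRingHom, ?_, ?_⟩
  · intro h
    apply hp
    apply Polynomial.map_injective _ (IntermediateField.inclusion hle).toRingHom.injective
    rw [h, Polynomial.map_zero]
  · rw [Polynomial.aeval_def, Polynomial.eval₂_map]
    rw [Polynomial.aeval_def] at hp0
    exact hp0

lemma algClosed (F : IntermediateField K L) [IsAlgClosed L] (hF : ∀ z : L, IsAlgebraic F z → z ∈ F) :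
    IsAlgClosed F := by
  apply IsAlgClosed.of_exists_root
  intro p hm hirr
  obtain ⟨z, hz⟩ := IsAlgClosed.exists_aeval_eq_zero L p hirr.degree_pos.ne'
  have hzF : z ∈ F := hF z ⟨p, hm.ne_zero, hz⟩
  refine ⟨⟨z, hzF⟩, ?_⟩
  have h1 : algebraMap F L (p.eval ⟨z, hzF⟩) = 0 := by
    rw [← Polynomial.aeval_algebraMap_apply_eq_algebraMap_eval]
    exact hz
  exact (map_eq_zero_iff _ (algebraMap F L).injective).1 h1

/-- the polynomial of the curve -/
lemma Bf_ne [CharZero K] (F : IntermediateField K L) (W : Affine K) (x : L) (hx : Transcendental F x) :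
    Bf (WL L W) x ≠ 0 := by
  intro h
  apply hx
  let p : Polynomial F := 4 * Polynomial.X ^ 3 + Polynomial.C (algebraMap K F W.b₂) * Polynomial.X ^ 2
    + 2 * Polynomial.C (algebraMap K F W.b₄) * Polynomial.X + Polynomial.C (algebraMap K F W.b₆)
  refine ⟨p, ?_, ?_⟩
  · intro h0
    have h1 : p.coeff 3 = 0 := by rw [h0, Polynomial.coeff_zero]
    have h2 : p.coeff 3 = 4 := by
      have e4 : (4 : Polynomial F) = Polynomial.C (4 : F) := (map_ofNat Polynomial.C 4).symm
      have e2 : (2 : Polynomial F) = Polynomial.C (2 : F) := (map_ofNat Polynomial.C 2).symm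
      have e6 : (2 : Polynomial F) * Polynomial.C (algebraMap K F W.b₄) = Polynomial.C (2 * algebraMap K F W.b₄) := by
        rw [e2, ← Polynomial.C_mul]
      show (4 * Polynomial.X ^ 3 + Polynomial.C (algebraMap K F W.b₂) * Polynomial.X ^ 2
        + 2 * Polynomial.C (algebraMap K F W.b₄) * Polynomial.X + Polynomial.C (algebraMap K F W.b₆) : Polynomial F).coeff 3 = 4
      rw [e6, e4]
      simp only [Polynomial.coeff_add, Polynomial.coeff_C_mul, Polynomial.coeff_X_pow, Polynomial.coeff_X,
        Polynomial.coeff_C]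
      norm_num
    have : CharZero F := charZero_of_injective_algebraMap (algebraMap K F).injective
    rw [h2] at h1
    exact absurd h1 (by norm_num)
  · show Polynomial.aeval x (4 * Polynomial.X ^ 3 + Polynomial.C (algebraMap K F W.b₂) * Polynomial.X ^ 2
      + 2 * Polynomial.C (algebraMap K F W.b₄) * Polynomial.X + Polynomial.C (algebraMap K F W.b₆) : Polynomial F) = 0
    rw [← h]
    unfold Bf
    rw [WeierstrassCurve.map_b₂, WeierstrassCurve.map_b₄, WeierstrassCurve.map_b₆]
    simp only [map_add, map_mul, map_pow, Polynomial.aeval_X, Polynomial.aeval_C, map_ofNat,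
      ← IsScalarTower.algebraMap_apply]

end base

theorem t (hTRC : Pool.Agent.Helper92.TN.TRC) (hDALG : Pool.Agent.Helper60.TG.DALG) :
    Pool.Agent.Helper60.TG.STEPS := by
  intro K L _ _ _ _ _ _ W _ hNC F D hF hDF v P hv hx hzv hP hzP halg
  have : CharZero L := charZero_of_injective_algebraMap (algebraMap K L).injective
  have hsq : ps v ^ 2 = Bf (WL L W) (xc v) := Pool.Agent.Helper34.T3.FDEG.ps_sq v hv
  have hps : ps v ≠ 0 := by
    intro h
    apply Bf_ne F W (xc v) hx
    rw [← hsq, h]
    ring
  have hDx : D (xc v) = zd D v * ps v := by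
    unfold zd
    rw [div_mul_cancel₀ _ hps]
  have hKF : ∀ r : K, algebraMap K L r ∈ F := fun r => F.algebraMap_mem r
  have hDψ : D (ps v) = (6 * xc v ^ 2 + algebraMap K L W.b₂ * xc v + algebraMap K L W.b₄) * zd D v := by
    have hbK : ∀ r : K, D (algebraMap K L r) = 0 := fun r => D.map_algebraMap r
    have h1 := congrArg D hsq
    unfold Bf at h1
    rw [WeierstrassCurve.map_b₂, WeierstrassCurve.map_b₄, WeierstrassCurve.map_b₆] at h1
    have h4 : D (4 : L) = 0 := by
      have := hbK 4
      rwa [map_ofNat] at this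
    have h2' : D (2 : L) = 0 := by
      have := hbK 2
      rwa [map_ofNat] at this
    simp only [D.leibniz_pow, map_add, D.leibniz, smul_eq_mul, hbK, h4, h2', nsmul_eq_mul,
      mul_zero, add_zero] at h1
    rw [hDx] at h1
    have h20 : (2 : L) * ps v ≠ 0 := mul_ne_zero two_ne_zero hps
    apply mul_left_cancel₀ h20
    push_cast at h1
    linear_combination h1
  -- the field G
  set S : Set L := (F : Set L) ∪ {xc v, ps v} with hS
  set G : IntermediateField K L := IntermediateField.adjoin K S with hG
  have hgen : ∀ z ∈ S, z ∈ G := fun z hz => IntermediateField.subset_adjoin K S hz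
  have hFG : ∀ z ∈ F, z ∈ G := fun z hz => hgen z (Or.inl hz)
  have hxG : xc v ∈ G := hgen _ (Or.inr (Or.inl rfl))
  have hψG : ps v ∈ G := hgen _ (Or.inr (Or.inr rfl))
  have hDG : ∀ z ∈ G, D z ∈ G := by
    apply (hDALG K L D).2.2.1 S
    rintro z (hz | rfl | rfl)
    · exact hFG _ (hDF z hz)
    · rw [hDx]
      exact mul_mem (hFG _ hzv) hψG
    · rw [hDψ]
      have h6 : (6 : L) ∈ G := by
        have := G.algebraMap_mem 6
        rwa [map_ofNat] at this
      exact mul_mem (add_mem (add_mem (mul_mem h6 (pow_mem hxG 2)) (mul_mem (G.algebraMap_mem _) hxG))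
        (G.algebraMap_mem _)) (hFG _ hzv)
  have halgG : IsAlgebraic G (xc P) := by
    refine alg_mono ?_ halg
    apply IntermediateField.adjoin.mono
    intro z hz
    rcases hz with hz | hz
    · exact Or.inl hz
    · exact Or.inr (Or.inl hz)
  obtain ⟨r, Q, hr, hQ, hzQ⟩ := hTRC K L W G D P hDG hP halgG (hFG _ hzP)
  have hz0 : zd D (0 : (WL L W).Point) = 0 := by
    unfold zd
    rw [xc_zero, map_zero, zero_div]
  by_cases hQ0 : Q = 0
  · refine ⟨r, 0, 0, hr, Or.inl rfl, ?_⟩
    rw [← hzQ, hQ0, hz0]
    push_cast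
    ring
  · have hQG := hQ.resolve_left hQ0
    have := algClosed F hF
    rcases hvv : v with _ | ⟨x, y, hxy⟩
    · exact absurd hvv hv
    · rcases hQQ : Q with _ | ⟨x', y', hxy'⟩
      · exact absurd hQQ hQ0
      · have hxv : xc v = x := by rw [hvv]; rfl
        have hpv : ps v = 2 * y + (WL L W).a₁ * x + (WL L W).a₃ := by rw [hvv]; rfl
        have hxQ : xc Q = x' := by rw [hQQ]; rfl
        have hpQ : ps Q = 2 * y' + (WL L W).a₁ * x' + (WL L W).a₃ := by rw [hQQ]; rfl
        set A : IntermediateField F L := IntermediateField.adjoin F ({x, y} : Set L) with hA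
        have ha1 : (WL L W).a₁ = algebraMap K L W.a₁ := rfl
        have ha3 : (WL L W).a₃ = algebraMap K L W.a₃ := rfl
        have hFA : ∀ z ∈ F, z ∈ A := fun z hz => A.algebraMap_mem ⟨z, hz⟩
        have hxA : x ∈ A := IntermediateField.subset_adjoin F _ (Or.inl rfl)
        have hyA : y ∈ A := IntermediateField.subset_adjoin F _ (Or.inr rfl)
        have h2A : (2 : L) ∈ A := by
          have := hFA _ (hKF 2)
          rwa [map_ofNat] at this
        have hGA : ∀ z ∈ G, z ∈ A := by
          have h1 : G ≤ A.restrictScalars K := by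
            rw [hG, IntermediateField.adjoin_le_iff]
            rintro z (hz | hz | hz)
            · exact hFA z hz
            · show z ∈ A
              rw [hz, hxv]
              exact hxA
            · show z ∈ A
              rw [hz, hpv, ha1, ha3]
              exact add_mem (add_mem (mul_mem h2A hyA) (mul_mem (hFA _ (hKF _)) hxA)) (hFA _ (hKF _))
          exact h1
        have hx'A : x' ∈ A := by
          rw [← hxQ]
          exact hGA _ hQG.1
        have hy'A : y' ∈ A := by
          have h1 : y' = (ps Q - algebraMap K L W.a₁ * x' - algebraMap K L W.a₃) / 2 := by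
            rw [hpQ, ha1, ha3]
            ring
          rw [h1]
          exact div_mem (sub_mem (sub_mem (hGA _ hQG.2) (mul_mem (hFA _ (hKF _)) hx'A)) (hFA _ (hKF _))) h2A
        obtain ⟨φ, c, hc1, hc2⟩ := hNC F L x y hxy (by rw [← hxv]; exact hx) x' y' hxy' hx'A hy'A
        have hadd : ∀ P Q : (WL L W).Point, zd D (P + Q) = zd D P + zd D Q :=
          fun P Q => Pool.Agent.Helper85.T3.DADD.t K L W D P Q
        let f : (WL L W).Point →+ L := { toFun := fun P => zd D P, map_zero' := hz0, map_add' := hadd }
        have hsm : ∀ (n : ℤ) (P : (WL L W).Point), zd D (n • P) = n * zd D P := by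
          intro n P
          have := map_zsmul f n P
          rw [zsmul_eq_mul] at this
          exact this
        have hc1' : Q = φ • v + c := by
          rw [hQQ, hvv]
          exact hc1
        refine ⟨r, φ, c, hr, ?_, ?_⟩
        · rcases hc2 with hc2 | ⟨x₀, y₀, h₀, hc2⟩
          · exact Or.inl hc2
          · right
            rw [hc2]
            refine ⟨x₀.2, ?_⟩
            show 2 * (y₀ : L) + (WL L W).a₁ * (x₀ : L) + (WL L W).a₃ ∈ F
            rw [ha1, ha3]
            have h2F : (2 : L) ∈ F := by
              have := hKF 2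
              rwa [map_ofNat] at this
            exact add_mem (add_mem (mul_mem h2F y₀.2) (mul_mem (hKF _) x₀.2)) (hKF _)
        · have h1 : zd D Q = φ * zd D v + zd D c := by
            rw [hc1', hadd, hsm]
          rw [hzQ] at h1
          rw [h1, ← hvv]
          ring

end

end Pool.Agent.Helper59.TG.STEPS
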